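import Pool.Agent.R666.MM.All

/-!
# The value of the min-max-removal game on coloured forest posets

The game (`MMR.Mv`), its value (`MMR.HasValue`), the essential part (`MMR.Ess`), the function `δ`
(`MMR.IsDelta`) and the formula (`MMR.formula`) are defined in `Pool/Agent/R666/MM/Defs.lean`.
-/

set_option autoImplicit false

namespace Pool.Agent.Results.MP_488bb9_co.MinMaxRemoval

/-- **The value of the min-max-removal game on an arbitrary coloured forest poset.** -/
theorem result (α : Type) [PartialOrder α] [Fintype α] (col : α → Bool) (hf : MMR.Forest α) :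
    (∃ δ, MMR.IsDelta col δ) ∧ ∀ δ, MMR.IsDelta col δ → ∀ n : ℤ,
      MMR.HasValue (MMR.Mv col) (Finset.univ : Finset α) n ↔ n = MMR.formula col δ :=
  MMR.answer α col hf

end Pool.Agent.Results.MP_488bb9_co.MinMaxRemoval
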